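import Mathlib

/-!
A bounded sequence of `1/n`-periodic functions whose limit superior is not constant almost
everywhere.
-/

open MeasureTheory Filter Topology Set

namespace Pool.Agent.Results.MP_942486_an.NonconstantLimsup

/-! ### Mixing -/

/-- The set of points `x` with `e x ∈ B` modulo one. -/
def T (e : ℕ) (B : Set ℝ) : Set ℝ := {x | Int.fract ((e : ℝ) * x) ∈ B}

/-- Lebesgue measure on the unit interval. -/
noncomputable def mu : Measure ℝ := volume.restrict (Ico 0 1)

instance : IsProbabilityMeasure mu := ⟨by simp [mu]⟩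

lemma T_meas (e : ℕ) {B : Set ℝ} (hB : MeasurableSet B) : MeasurableSet (T e B) :=
  (measurable_fract.comp (measurable_const_mul (e : ℝ))) hB

lemma cell {e : ℕ} (he : 0 < e) (B : Set ℝ) (i : ℕ) :
    volume (Ico ((i : ℝ) / e) ((i + 1) / e) ∩ T e B) =
      ENNReal.ofReal (1 / e) * volume (B ∩ Ico 0 1) := by
  have he' : (0 : ℝ) < e := by exact_mod_cast he
  have h1 : Ico ((i : ℝ) / e) ((i + 1) / e) ∩ T e B =
      (fun x => (e : ℝ) * x) ⁻¹' ((fun y => y - (i : ℝ)) ⁻¹' (B ∩ Ico 0 1)) := by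
    ext x
    rw [mem_inter_iff, mem_Ico, div_le_iff₀ he', lt_div_iff₀ he']
    change _ ∧ Int.fract ((e : ℝ) * x) ∈ B ↔ ((e : ℝ) * x - i ∈ B ∧ (e : ℝ) * x - i ∈ Ico (0 : ℝ) 1)
    have h2 : (i ≤ x * e ∧ x * e < i + 1) → Int.fract ((e : ℝ) * x) = (e : ℝ) * x - i := by
      rintro ⟨h3, h4⟩
      rw [Int.fract_eq_iff]
      exact ⟨by linarith, by linarith, i, by push_cast; ring⟩
    constructor
    · rintro ⟨h3, h4⟩
      rw [h2 h3] at h4
      exact ⟨h4, ⟨by linarith [h3.1], by linarith [h3.2]⟩⟩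
    · rintro ⟨h3, h4, h5⟩
      have h6 : (i : ℝ) ≤ x * e ∧ x * e < i + 1 := ⟨by linarith, by linarith⟩
      exact ⟨h6, by rw [h2 h6]; exact h3⟩
  have h2 : volume ((fun y : ℝ => y - (i : ℝ)) ⁻¹' (B ∩ Ico 0 1)) = volume (B ∩ Ico 0 1) := by
    simp_rw [sub_eq_add_neg]
    exact measure_preimage_add_right volume _ _
  rw [h1, Real.volume_preimage_mul_left he'.ne', h2, abs_of_pos (by positivity), one_div]

lemma initial {e : ℕ} (he : 0 < e) {B : Set ℝ} (hB : MeasurableSet B) (n : ℕ) :
    volume (Ico 0 ((n : ℝ) / e) ∩ T e B) =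
      n * (ENNReal.ofReal (1 / e) * volume (B ∩ Ico 0 1)) := by
  have he' : (0 : ℝ) < e := by exact_mod_cast he
  induction n with
  | zero => simp
  | succ n ih =>
    have h1 : Ico (0 : ℝ) (((n + 1 : ℕ) : ℝ) / e) =
        Ico 0 ((n : ℝ) / e) ∪ Ico ((n : ℝ) / e) ((n + 1) / e) := by
      push_cast
      rw [Ico_union_Ico_eq_Ico (by positivity)]
      exact div_le_div_of_nonneg_right (by linarith) he'.le
    rw [h1, union_inter_distrib_right, measure_union, ih, cell he]
    · push_cast; ring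
    · refine Disjoint.mono inter_subset_left inter_subset_left ?_
      rw [Set.disjoint_left]
      intro x hx hx'
      exact absurd hx.2 (not_lt.2 hx'.1)
    · exact measurableSet_Ico.inter (T_meas e hB)

lemma cell_ne_top (e : ℕ) (B : Set ℝ) : ENNReal.ofReal (1 / e) * volume (B ∩ Ico 0 1) ≠ ⊤ := by
  refine ENNReal.mul_ne_top ENNReal.ofReal_ne_top ?_
  refine ne_top_of_le_ne_top ?_ (measure_mono inter_subset_right)
  simp

lemma lim_Ico {B : Set ℝ} (hB : MeasurableSet B) {a : ℝ} (ha : 0 ≤ a) :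
    Tendsto (fun e : ℕ => volume.real (Ico 0 a ∩ T e B)) atTop
      (𝓝 (a * volume.real (B ∩ Ico 0 1))) := by
  set b := volume.real (B ∩ Ico 0 1) with hb
  have hb0 : 0 ≤ b := measureReal_nonneg
  have h1 : Tendsto (fun e : ℕ => (⌊a * (e : ℝ)⌋₊ : ℝ) / e * b) atTop (𝓝 (a * b)) :=
    ((tendsto_nat_floor_mul_div_atTop ha).comp tendsto_natCast_atTop_atTop).mul_const b
  have h2 : Tendsto (fun e : ℕ => (⌊a * (e : ℝ)⌋₊ : ℝ) / e * b + 1 / e * b) atTop
      (𝓝 (a * b + 0 * b)) :=
    h1.add (tendsto_one_div_atTop_nhds_zero_nat.mul_const b)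
  rw [zero_mul, add_zero] at h2
  refine tendsto_of_tendsto_of_tendsto_of_le_of_le' h1 h2 ?_ ?_
  · filter_upwards [eventually_gt_atTop 0] with e he
    have he' : (0 : ℝ) < e := by exact_mod_cast he
    have h3 : volume.real (Ico 0 ((⌊a * (e : ℝ)⌋₊ : ℝ) / e) ∩ T e B) =
        (⌊a * (e : ℝ)⌋₊ : ℝ) / e * b := by
      rw [Measure.real, initial he hB, ENNReal.toReal_mul, ENNReal.toReal_mul,
        ENNReal.toReal_ofReal (by positivity), ENNReal.toReal_natCast]
      rw [hb, Measure.real]; ring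
    rw [← h3]
    refine measureReal_mono ?_ ?_
    · refine inter_subset_inter_left _ (Ico_subset_Ico_right ?_)
      rw [div_le_iff₀ he']
      exact Nat.floor_le (by positivity)
    · refine ne_top_of_le_ne_top ?_ (measure_mono inter_subset_left)
      simp
  · filter_upwards [eventually_gt_atTop 0] with e he
    have he' : (0 : ℝ) < e := by exact_mod_cast he
    have h3 : volume.real (Ico 0 (((⌊a * (e : ℝ)⌋₊ + 1 : ℕ) : ℝ) / e) ∩ T e B) =
        (⌊a * (e : ℝ)⌋₊ : ℝ) / e * b + 1 / e * b := by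
      rw [Measure.real, initial he hB, ENNReal.toReal_mul, ENNReal.toReal_mul,
        ENNReal.toReal_ofReal (by positivity), ENNReal.toReal_natCast]
      rw [hb, Measure.real]; push_cast; ring
    rw [← h3]
    refine measureReal_mono ?_ ?_
    · refine inter_subset_inter_left _ (Ico_subset_Ico_right ?_)
      rw [le_div_iff₀ he']
      push_cast
      exact (Nat.lt_floor_add_one _).le
    · refine ne_top_of_le_ne_top ?_ (measure_mono inter_subset_left)
      simp

/-- Mixing: the set of `x ∈ A` with `e x ∈ B` has measure close to the product. -/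
lemma mixing {B : Set ℝ} (hB : MeasurableSet B) {A : Set ℝ} (hA : MeasurableSet A) :
    Tendsto (fun e : ℕ => mu.real (A ∩ T e B)) atTop (𝓝 (mu.real A * mu.real B)) := by
  have hmuB : mu.real B = volume.real (B ∩ Ico 0 1) := by
    rw [Measure.real, mu, Measure.restrict_apply hB, Measure.real]
  rw [hmuB]
  have hmu : ∀ (e : ℕ) (C : Set ℝ), MeasurableSet C →
      mu.real (C ∩ T e B) = volume.real (C ∩ T e B ∩ Ico 0 1) := by
    intro e C hC
    rw [Measure.real, mu, Measure.restrict_apply (hC.inter (T_meas e hB)), Measure.real]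
  have huniv : Tendsto (fun e : ℕ => mu.real (T e B)) atTop
      (𝓝 (volume.real (B ∩ Ico 0 1))) := by
    have h := lim_Ico hB zero_le_one
    rw [one_mul] at h
    refine h.congr fun e => ?_
    rw [Measure.real, Measure.real, mu, Measure.restrict_apply (T_meas e hB), inter_comm]
  refine MeasurableSpace.induction_on_inter
    (C := fun A _ => Tendsto (fun e : ℕ => mu.real (A ∩ T e B)) atTop
      (𝓝 (mu.real A * volume.real (B ∩ Ico 0 1)))) (borel_eq_generateFrom_Iio ℝ)
    isPiSystem_Iio ?_ ?_ ?_ ?_ A hA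
  · simp
  · rintro _ ⟨a, rfl⟩
    rcases le_total a 0 with ha | ha
    · have h1 : ∀ e : ℕ, mu.real (Iio a ∩ T e B) = 0 := by
        intro e
        rw [hmu e _ measurableSet_Iio]
        have : Iio a ∩ T e B ∩ Ico 0 1 = ∅ := by
          ext x
          simp only [mem_inter_iff, mem_Iio, mem_Ico, mem_empty_iff_false, iff_false]
          rintro ⟨⟨h2, -⟩, h3, -⟩
          linarith
        rw [this]; simp
      have h2 : mu.real (Iio a) = 0 := by
        rw [Measure.real, mu, Measure.restrict_apply measurableSet_Iio]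
        have : Iio a ∩ Ico 0 1 = ∅ := by
          ext x
          simp only [mem_inter_iff, mem_Iio, mem_Ico, mem_empty_iff_false, iff_false]
          rintro ⟨h2, h3, -⟩
          linarith
        rw [this]; simp
      simp only [h1, h2, zero_mul]
      exact tendsto_const_nhds
    · have h1 : ∀ e : ℕ, mu.real (Iio a ∩ T e B) = volume.real (Ico 0 (min a 1) ∩ T e B) := by
        intro e
        rw [hmu e _ measurableSet_Iio]
        congr 1
        ext x
        simp only [mem_inter_iff, mem_Iio, mem_Ico, lt_min_iff]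
        tauto
      have h2 : mu.real (Iio a) = min a 1 := by
        rw [Measure.real, mu, Measure.restrict_apply measurableSet_Iio]
        have : Iio a ∩ Ico 0 1 = Ico 0 (min a 1) := by
          ext x
          simp only [mem_inter_iff, mem_Iio, mem_Ico, lt_min_iff]
          tauto
        rw [this, Real.volume_Ico, sub_zero, ENNReal.toReal_ofReal (by positivity)]
      simp only [h1, h2]
      exact lim_Ico hB (by positivity)
  · intro C hC h
    have h1 : ∀ e : ℕ, mu.real (Cᶜ ∩ T e B) = mu.real (T e B) - mu.real (C ∩ T e B) := by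
      intro e
      have := measureReal_inter_add_diff (μ := mu) (s := T e B) hC (measure_ne_top _ _)
      rw [diff_eq, inter_comm, inter_comm (T e B) Cᶜ] at this
      linarith
    have h2 : mu.real Cᶜ = 1 - mu.real C := by
      rw [measureReal_compl hC, probReal_univ]
    simp only [h1, h2]
    have := huniv.sub h
    refine this.congr' ?_ |>.mono_right ?_
    · exact Eventually.of_forall fun e => rfl
    · rw [sub_mul, one_mul]
  · intro f hf hfm h
    have h1 : ∀ e : ℕ, mu.real ((⋃ i, f i) ∩ T e B) = ∑' i, mu.real (f i ∩ T e B) := by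
      intro e
      rw [iUnion_inter, Measure.real, measure_iUnion, ENNReal.tsum_toReal_eq]
      · rfl
      · intro i; exact measure_ne_top _ _
      · intro i j hij
        exact (hf hij).mono inter_subset_left inter_subset_left
      · intro i; exact (hfm i).inter (T_meas e hB)
    have h2 : mu.real (⋃ i, f i) = ∑' i, mu.real (f i) := by
      rw [Measure.real, measure_iUnion hf hfm, ENNReal.tsum_toReal_eq]
      · rfl
      · intro i; exact measure_ne_top _ _
    have hsum : Summable fun i => mu.real (f i) := by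
      refine ENNReal.summable_toReal ?_
      rw [← measure_iUnion hf hfm]
      exact measure_ne_top _ _
    simp only [h1, h2, ← tsum_mul_right]
    refine tendsto_tsum_of_dominated_convergence (bound := fun i => mu.real (f i)) hsum h ?_
    refine Eventually.of_forall fun e i => ?_
    rw [Real.norm_of_nonneg measureReal_nonneg]
    exact measureReal_mono inter_subset_left (measure_ne_top _ _)

/-! ### Choice of the multipliers -/

/-- The two kinds of conditions. -/
def V (d : ℕ) (b : Bool) : Set ℝ := if b then T d (Ici (7 / 8)) else T (d + 1) (Ici (1 / 4))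

/-- Their probabilities. -/
noncomputable def v (b : Bool) : ℝ := if b then 1 / 8 else 3 / 4

lemma V_meas (d : ℕ) (b : Bool) : MeasurableSet (V d b) := by
  cases b
  · exact T_meas _ measurableSet_Ici
  · exact T_meas _ measurableSet_Ici

lemma mu_Ici {a : ℝ} (h0 : 0 ≤ a) (h1 : a ≤ 1) : mu.real (Ici a) = 1 - a := by
  rw [Measure.real, mu, Measure.restrict_apply measurableSet_Ici]
  have : Ici a ∩ Ico 0 1 = Ico a 1 := by
    ext x
    simp only [mem_inter_iff, mem_Ici, mem_Ico]
    constructor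
    · rintro ⟨h, -, h'⟩; exact ⟨h, h'⟩
    · rintro ⟨h, h'⟩; exact ⟨h, h0.trans h, h'⟩
  rw [this, Real.volume_Ico, ENNReal.toReal_ofReal (by linarith)]

lemma mix_V {A : Set ℝ} (hA : MeasurableSet A) (b : Bool) :
    Tendsto (fun d : ℕ => mu.real (A ∩ V d b)) atTop (𝓝 (mu.real A * v b)) := by
  cases b
  · have h := (mixing (measurableSet_Ici (a := (1 / 4 : ℝ))) hA).comp (tendsto_add_atTop_nat 1)
    rw [mu_Ici (by norm_num) (by norm_num)] at h
    have : (v false : ℝ) = 1 - 1 / 4 := by norm_num [v]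
    rw [this]
    exact h
  · have h := mixing (measurableSet_Ici (a := (7 / 8 : ℝ))) hA
    rw [mu_Ici (by norm_num) (by norm_num)] at h
    have : (v true : ℝ) = 1 - 7 / 8 := by norm_num [v]
    rw [this]
    exact h

lemma v_nonneg (b : Bool) : 0 ≤ v b := by cases b <;> norm_num [v]

lemma v_le (b : Bool) : v b ≤ 1 := by cases b <;> norm_num [v]

lemma prod_v {k : ℕ} (t : Fin k → Bool) : 0 ≤ ∏ j, v (t j) ∧ ∏ j, v (t j) ≤ 1 :=
  ⟨Finset.prod_nonneg fun _ _ => v_nonneg _, Finset.prod_le_one (fun _ _ => v_nonneg _)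
    fun _ _ => v_le _⟩

lemma choose_d (k : ℕ) : ∀ (ι : Type) [Fintype ι] (R : ι → Set ℝ), (∀ i, MeasurableSet (R i)) →
    ∀ (S : Fin k → Set ℕ), (∀ i N, ∃ d ∈ S i, N ≤ d) → ∀ δ : ℝ, 0 < δ →
    ∃ d : Fin k → ℕ, (∀ i, d i ∈ S i) ∧ ∀ i (t : Fin k → Bool),
      |mu.real (R i ∩ {x | ∀ j, x ∈ V (d j) (t j)}) - mu.real (R i) * ∏ j, v (t j)| < δ := by
  induction k with
  | zero =>
    intro ι _ R hR S hS δ hδ
    refine ⟨fun i => i.elim0, fun i => i.elim0, fun i t => ?_⟩
    have : R i ∩ {x | ∀ j : Fin 0, x ∈ V (Fin.elim0 j) (t j)} = R i := by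
      rw [inter_eq_left]
      intro x _ j
      exact j.elim0
    rw [this]
    simpa using hδ
  | succ k ih =>
    intro ι _ R hR S hS δ hδ
    have hev : ∀ᶠ d : ℕ in atTop, ∀ p : ι × Bool,
        |mu.real (R p.1 ∩ V d p.2) - mu.real (R p.1) * v p.2| < δ / 2 := by
      rw [eventually_all]
      intro p
      have h := mix_V (hR p.1) p.2
      rw [Metric.tendsto_nhds] at h
      filter_upwards [h (δ / 2) (half_pos hδ)] with d hd
      rwa [Real.dist_eq] at hd
    obtain ⟨N, hN⟩ := eventually_atTop.1 hev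
    obtain ⟨d0, hd0, hNd⟩ := hS 0 N
    obtain ⟨d', hd', hd'2⟩ := ih (ι × Bool) (fun p => R p.1 ∩ V d0 p.2)
      (fun p => (hR p.1).inter (V_meas _ _)) (fun j => S j.succ) (fun i N => hS i.succ N) (δ / 2)
      (half_pos hδ)
    refine ⟨Fin.cons d0 d', ?_, ?_⟩
    · intro i
      induction i using Fin.cases with
      | zero => exact hd0
      | succ j => exact hd' j
    · intro i t
      have h1 := hN d0 hNd (i, t 0)
      have h2 := hd'2 (i, t 0) (fun j => t j.succ)
      simp only at h1 h2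
      have h3 : R i ∩ {x | ∀ j : Fin (k + 1), x ∈ V ((Fin.cons d0 d' : Fin (k + 1) → ℕ) j) (t j)} =
          R i ∩ V d0 (t 0) ∩ {x | ∀ j : Fin k, x ∈ V (d' j) (t j.succ)} := by
        ext x
        simp only [mem_inter_iff, mem_setOf_eq, Fin.forall_fin_succ, Fin.cons_zero, Fin.cons_succ]
        tauto
      rw [h3, Fin.prod_univ_succ]
      obtain ⟨h4, h5⟩ := prod_v (fun j => t (Fin.succ j))
      set P := ∏ j : Fin k, v (t j.succ)
      calc |mu.real (R i ∩ V d0 (t 0) ∩ {x | ∀ j : Fin k, x ∈ V (d' j) (t j.succ)}) -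
            mu.real (R i) * (v (t 0) * P)|
          = |(mu.real (R i ∩ V d0 (t 0) ∩ {x | ∀ j : Fin k, x ∈ V (d' j) (t j.succ)}) -
            mu.real (R i ∩ V d0 (t 0)) * P) +
            (mu.real (R i ∩ V d0 (t 0)) - mu.real (R i) * v (t 0)) * P| := by
              congr 1; ring
        _ ≤ |mu.real (R i ∩ V d0 (t 0) ∩ {x | ∀ j : Fin k, x ∈ V (d' j) (t j.succ)}) -
            mu.real (R i ∩ V d0 (t 0)) * P| +
            |(mu.real (R i ∩ V d0 (t 0)) - mu.real (R i) * v (t 0)) * P| := abs_add_le _ _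
        _ < δ / 2 + δ / 2 := by
            refine add_lt_add_of_lt_of_le h2 ?_
            rw [abs_mul, abs_of_nonneg h4]
            exact (mul_le_of_le_one_right (abs_nonneg _) h5).trans h1.le
        _ = δ := by ring

/-! ### The basic family -/

/-- `U` is a union of measurable `1/n`-periodic sets with `lo ≤ n < hi`. -/
def Good (lo hi : ℕ) (U : Set ℝ) : Prop :=
  ∃ E : ℕ → Set ℝ, (∀ n, MeasurableSet (E n)) ∧ (∀ (n : ℕ) (x : ℝ), x + 1 / (n : ℝ) ∈ E n ↔ x ∈ E n) ∧
    (∀ n, n < lo ∨ hi ≤ n → E n = ∅) ∧ U = ⋃ n, E n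

lemma T_per {q e : ℕ} (hq : 0 < q) (h : q ∣ e) (B : Set ℝ) (x : ℝ) :
    x + 1 / q ∈ T e B ↔ x ∈ T e B := by
  obtain ⟨c, rfl⟩ := h
  have hq' : (q : ℝ) ≠ 0 := by positivity
  have : ((q * c : ℕ) : ℝ) * (x + 1 / q) = ((q * c : ℕ) : ℝ) * x + (c : ℕ) := by
    push_cast
    field_simp
  unfold T
  rw [mem_setOf_eq, mem_setOf_eq, this, Int.fract_add_natCast]

lemma supply {k : ℕ} (q : Fin k → ℕ) (hq : ∀ i, (q i).Prime) (hinj : Function.Injective q)
    (i : Fin k) (N : ℕ) : ∃ d ∈ {d | q i ∣ d ∧ ∀ j, j ≠ i → q j ∣ d + 1}, N ≤ d := by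
  set M : ℕ := ∏ j ∈ Finset.univ.erase i, q j with hM
  have hMpos : 0 < M := Finset.prod_pos fun j _ => (hq j).pos
  have hco : Nat.Coprime (q i) M := by
    refine Nat.Coprime.prod_right fun j hj => ?_
    rw [Nat.coprime_primes (hq i) (hq j)]
    exact fun h => (Finset.ne_of_mem_erase hj) (hinj h).symm
  obtain ⟨d, hd1, hd2⟩ := Nat.chineseRemainder hco 0 (M - 1)
  have h1 : q i ∣ d := (Nat.modEq_zero_iff_dvd).1 hd1
  have h2 : M ∣ d + 1 := by
    rw [← Nat.modEq_zero_iff_dvd]
    have := hd2.add_right 1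
    rw [Nat.sub_add_cancel hMpos] at this
    exact this.trans (by rw [Nat.ModEq, Nat.mod_self, Nat.zero_mod])
  refine ⟨d + N * (q i * M), ⟨?_, fun j hj => ?_⟩, ?_⟩
  · exact dvd_add h1 (Dvd.intro_left _ (by ring_nf : N * M * q i = N * (q i * M)))
  · have h3 : q j ∣ M := Finset.dvd_prod_of_mem q (Finset.mem_erase.2 ⟨hj, Finset.mem_univ _⟩)
    have h4 : d + N * (q i * M) + 1 = (d + 1) + N * q i * M := by ring
    rw [h4]
    exact dvd_add (h3.trans h2) (h3.trans (dvd_mul_left _ _))
  · have : 1 ≤ q i * M := Nat.mul_pos (hq i).pos hMpos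
    calc N = N * 1 := (mul_one N).symm
      _ ≤ N * (q i * M) := Nat.mul_le_mul_left _ this
      _ ≤ _ := Nat.le_add_left _ _

lemma fract_lem {x y : ℝ} (h0 : 0 ≤ x) (h1 : x < 1) (hy : 1 ≤ x + Int.fract y) :
    Int.fract (x + y) = x + Int.fract y - 1 := by
  rw [Int.fract_eq_iff]
  refine ⟨by linarith, by linarith [Int.fract_lt_one y], ⌊y⌋ + 1, ?_⟩
  have := Int.floor_add_fract y
  push_cast
  linarith

lemma gadget (k lo : ℕ) {δ : ℝ} (hδ : 0 < δ) {R : Set ℝ} (hR : MeasurableSet R)
    (hRJ : R ⊆ Ico (1 / 8) (1 / 4)) :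
    ∃ (hi : ℕ) (U : Set ℝ), Good lo hi U ∧ MeasurableSet U ∧
      (k + 1) * (mu.real R * (1 / 8 * (3 / 4) ^ k) - δ) ≤ mu.real (R ∩ U) ∧
      mu.real (Ico (1 / 2) 1 ∩ U) ≤ (3 / 4) ^ (k + 1) + δ := by
  classical
  set q : Fin (k + 1) → ℕ := fun i => Nat.nth Nat.Prime (lo + i) with hq
  have hqp : ∀ i, (q i).Prime := fun i => Nat.prime_nth_prime _
  have hqinj : Function.Injective q := by
    intro i j hij
    have := Nat.nth_injective Nat.infinite_setOf_prime hij
    exact Fin.ext (by omega)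
  have hqlo : ∀ i, lo ≤ q i := by
    intro i
    have : lo + i ≤ q i := (Nat.nth_strictMono Nat.infinite_setOf_prime).le_apply
    omega
  obtain ⟨d, hd, hd2⟩ := choose_d (k + 1) Bool (fun b => if b then R else univ)
    (fun b => by cases b; exacts [MeasurableSet.univ, hR])
    (fun i => {d | q i ∣ d ∧ ∀ j, j ≠ i → q j ∣ d + 1}) (supply q hqp hqinj) δ hδ
  set W : Fin (k + 1) → Set ℝ := fun i => {x | ∀ j, x ∈ V (d j) (decide (j = i))} with hW
  have hWm : ∀ i, MeasurableSet (W i) := by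
    intro i
    rw [hW]
    simp only [setOf_forall]
    exact MeasurableSet.iInter fun j => V_meas _ _
  have hWper : ∀ i x, x + 1 / (q i : ℝ) ∈ W i ↔ x ∈ W i := by
    intro i x
    refine forall_congr' fun j => ?_
    by_cases hji : j = i
    · subst hji
      simp only [decide_true, V, if_true]
      exact T_per (hqp j).pos (hd j).1 _ _
    · simp only [hji, decide_false, V]
      exact T_per (hqp i).pos ((hd j).2 i (Ne.symm hji)) _ _
  refine ⟨(∑ i, q i) + 1, ⋃ i, W i, ⟨fun n => ⋃ i, if q i = n then W i else ∅, ?_, ?_, ?_, ?_⟩,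
    MeasurableSet.iUnion hWm, ?_, ?_⟩
  · intro n
    refine MeasurableSet.iUnion fun i => ?_
    split_ifs
    exacts [hWm i, MeasurableSet.empty]
  · intro n x
    rw [mem_iUnion, mem_iUnion]
    refine exists_congr fun i => ?_
    split_ifs with h
    · rw [← h]; exact hWper i x
    · exact Iff.rfl
  · intro n hn
    rw [iUnion_eq_empty]
    intro i
    rw [if_neg]
    intro h
    have h1 := hqlo i
    have h2 : q i ≤ ∑ i, q i := Finset.single_le_sum (fun _ _ => Nat.zero_le _) (Finset.mem_univ i)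
    omega
  · ext x
    simp only [mem_iUnion]
    constructor
    · rintro ⟨i, hi⟩
      exact ⟨q i, i, by rw [if_pos rfl]; exact hi⟩
    · rintro ⟨n, i, hi⟩
      refine ⟨i, ?_⟩
      split_ifs at hi with h
      · exact hi
      · exact absurd hi (notMem_empty _)
  · -- lower bound
    have hdisj : Pairwise (Function.onFun Disjoint fun i => R ∩ W i) := by
      intro i j hij
      rw [Function.onFun, Set.disjoint_left]
      rintro x ⟨hxR, hxi⟩ ⟨-, hxj⟩
      have hx := hRJ hxR
      have h1 := hxi i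
      have h2 := hxj i
      simp only [decide_true, V, if_true] at h1
      simp only [hij, decide_false, V] at h2
      change 7 / 8 ≤ Int.fract ((d i : ℝ) * x) at h1
      change 1 / 4 ≤ Int.fract (((d i + 1 : ℕ) : ℝ) * x) at h2
      have h3 : ((d i + 1 : ℕ) : ℝ) * x = x + (d i : ℝ) * x := by push_cast; ring
      rw [h3, fract_lem (by linarith [hx.1]) (by linarith [hx.2]) (by linarith [hx.1])] at h2
      linarith [hx.2, Int.fract_lt_one ((d i : ℝ) * x)]
    rw [inter_iUnion, measureReal_iUnion_fintype hdisj (fun i => hR.inter (hWm i))]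
    have hone : ∀ i, mu.real R * (1 / 8 * (3 / 4) ^ k) - δ ≤ mu.real (R ∩ W i) := by
      intro i
      have h1 := hd2 true (fun j => decide (j = i))
      simp only [if_true] at h1
      have h2 : ∏ j, v (decide (j = i)) = 1 / 8 * (3 / 4) ^ k := by
        rw [← Finset.mul_prod_erase Finset.univ _ (Finset.mem_univ i)]
        congr 1
        · simp [v]
        · rw [Finset.prod_congr rfl (g := fun _ => (3 / 4 : ℝ))]
          · rw [Finset.prod_const, Finset.card_erase_of_mem (Finset.mem_univ i), Finset.card_univ,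
              Fintype.card_fin, Nat.add_sub_cancel]
          · intro j hj
            have := Finset.ne_of_mem_erase hj
            simp [v, this]
      rw [h2] at h1
      have := (abs_lt.1 h1).1
      have h3 : mu.real (R ∩ {x | ∀ j, x ∈ V (d j) (decide (j = i))}) = mu.real (R ∩ W i) := rfl
      linarith
    calc (k + 1 : ℝ) * (mu.real R * (1 / 8 * (3 / 4) ^ k) - δ)
        = ∑ _i : Fin (k + 1), (mu.real R * (1 / 8 * (3 / 4) ^ k) - δ) := by
          rw [Finset.sum_const, Finset.card_univ, Fintype.card_fin, nsmul_eq_mul]; push_cast; ring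
      _ ≤ _ := Finset.sum_le_sum fun i _ => hone i
  · -- upper bound
    have h1 := hd2 false (fun _ => false)
    simp only [Bool.false_eq_true, if_false] at h1
    have h2 : ∏ _j : Fin (k + 1), v false = (3 / 4) ^ (k + 1) := by
      rw [Finset.prod_const, Finset.card_univ, Fintype.card_fin]; simp [v]
    rw [h2, probReal_univ, one_mul] at h1
    have h3 : Ico (1 / 2) 1 ∩ ⋃ i, W i ⊆ univ ∩ {x | ∀ j, x ∈ V (d j) false} := by
      rintro x ⟨hx, hxU⟩
      obtain ⟨i, hi⟩ := mem_iUnion.1 hxU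
      refine ⟨mem_univ _, fun j => ?_⟩
      by_cases hji : j = i
      · subst hji
        have h4 := hi j
        simp only [decide_true, V, if_true] at h4
        change 7 / 8 ≤ Int.fract ((d j : ℝ) * x) at h4
        change 1 / 4 ≤ Int.fract (((d j + 1 : ℕ) : ℝ) * x)
        have h5 : ((d j + 1 : ℕ) : ℝ) * x = x + (d j : ℝ) * x := by push_cast; ring
        rw [h5, fract_lem (by linarith [hx.1]) hx.2 (by linarith [hx.1])]
        linarith [hx.1]
      · have h4 := hi j
        simpa only [hji, decide_false] using h4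
    have h4 := measureReal_mono (μ := mu) h3 (measure_ne_top _ _)
    linarith [(abs_lt.1 h1).2]

/-! ### Blocks -/

lemma good_empty (lo hi : ℕ) : Good lo hi ∅ :=
  ⟨fun _ => ∅, fun _ => MeasurableSet.empty, fun _ _ => Iff.rfl, fun _ _ => rfl, by simp⟩

lemma good_mono {lo hi hi' : ℕ} {U : Set ℝ} (h : Good lo hi U) (hh : hi ≤ hi') :
    Good lo hi' U := by
  obtain ⟨E, h1, h2, h3, h4⟩ := h
  exact ⟨E, h1, h2, fun n hn => h3 n (by omega), h4⟩

lemma good_union {lo hi : ℕ} {U U' : Set ℝ} (h : Good lo hi U) (h' : Good lo hi U') :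
    Good lo hi (U ∪ U') := by
  obtain ⟨E, h1, h2, h3, h4⟩ := h
  obtain ⟨E', h1', h2', h3', h4'⟩ := h'
  refine ⟨fun n => E n ∪ E' n, fun n => (h1 n).union (h1' n), fun n x => ?_, fun n hn => ?_, ?_⟩
  · rw [mem_union, mem_union, h2, h2']
  · simp only [h3 n hn, h3' n hn, union_empty]
  · rw [h4, h4', iUnion_union_distrib]

lemma r_le (k : ℕ) : (k + 1 : ℝ) / 8 * (3 / 4) ^ k ≤ 1 := by
  have h1 : 1 + (k : ℝ) * (1 / 3) ≤ (1 + 1 / 3) ^ k := one_add_mul_le_pow (by norm_num) k
  have h2 : (1 + 1 / 3 : ℝ) ^ k * (3 / 4) ^ k = 1 := by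
    rw [← mul_pow]; norm_num
  have h3 : (0 : ℝ) < (3 / 4) ^ k := by positivity
  have h4 : (k + 1 : ℝ) / 8 ≤ (1 + 1 / 3) ^ k := by
    have : (0 : ℝ) ≤ k := Nat.cast_nonneg k
    linarith
  calc (k + 1 : ℝ) / 8 * (3 / 4) ^ k ≤ (1 + 1 / 3) ^ k * (3 / 4) ^ k := by gcongr
    _ = 1 := h2

lemma iter (k lo : ℕ) {δ : ℝ} (hδ : 0 < δ) (a : ℕ) :
    ∃ (hi : ℕ) (U : Set ℝ), Good lo hi U ∧ MeasurableSet U ∧
      mu.real (Ico (1 / 8) (1 / 4) \ U) ≤
        (1 - (k + 1 : ℝ) / 8 * (3 / 4) ^ k) ^ a * (1 / 8) + a * ((k + 1) * δ) ∧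
      mu.real (Ico (1 / 2) 1 ∩ U) ≤ a * ((3 / 4) ^ (k + 1) + δ) := by
  induction a with
  | zero =>
    refine ⟨lo, ∅, good_empty _ _, MeasurableSet.empty, ?_, by simp⟩
    rw [diff_empty, Measure.real, mu, Measure.restrict_apply measurableSet_Ico]
    have : Ico (1 / 8 : ℝ) (1 / 4) ∩ Ico 0 1 = Ico (1 / 8) (1 / 4) := by
      rw [inter_eq_left]
      exact Ico_subset_Ico (by norm_num) (by norm_num)
    rw [this, Real.volume_Ico, ENNReal.toReal_ofReal (by norm_num)]
    norm_num
  | succ a ih =>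
    obtain ⟨hi, U, hG, hU, h1, h2⟩ := ih
    obtain ⟨hi', U', hG', hU', h1', h2'⟩ := gadget k lo hδ
      ((measurableSet_Ico (a := (1 / 8 : ℝ)) (b := 1 / 4)).diff hU) diff_subset
    refine ⟨max hi hi', U ∪ U', good_union (good_mono hG (le_max_left _ _))
      (good_mono hG' (le_max_right _ _)), hU.union hU', ?_, ?_⟩
    · set x := mu.real (Ico (1 / 8) (1 / 4) \ U) with hx
      have h3 : Ico (1 / 8 : ℝ) (1 / 4) \ (U ∪ U') = (Ico (1 / 8) (1 / 4) \ U) \ U' := by
        rw [diff_diff]
      have h4 := measureReal_inter_add_diff (μ := mu) (s := Ico (1 / 8 : ℝ) (1 / 4) \ U) hU'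
        (measure_ne_top _ _)
      rw [h3]
      have h5 := r_le k
      have h6 : 0 ≤ (k + 1 : ℝ) / 8 * (3 / 4) ^ k := by positivity
      set r := (k + 1 : ℝ) / 8 * (3 / 4) ^ k with hr
      have h7 : (k + 1 : ℝ) * (x * (1 / 8 * (3 / 4) ^ k) - δ) = r * x - (k + 1) * δ := by
        rw [hr]; ring
      rw [h7] at h1'
      have h8 : (1 - r) * x ≤ (1 - r) * ((1 - r) ^ a * (1 / 8) + a * ((k + 1) * δ)) :=
        mul_le_mul_of_nonneg_left h1 (by linarith)
      have h9 : 0 ≤ (a : ℝ) * ((k + 1) * δ) := by positivity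
      have h10 : (1 - r) * (a * ((k + 1) * δ)) ≤ a * ((k + 1) * δ) := by nlinarith
      have h11 : (1 - r) ^ (a + 1) = (1 - r) * (1 - r) ^ a := by ring
      rw [h11]
      push_cast
      nlinarith
    · have h3 : Ico (1 / 2 : ℝ) 1 ∩ (U ∪ U') = (Ico (1 / 2) 1 ∩ U) ∪ (Ico (1 / 2) 1 ∩ U') :=
        inter_union_distrib_left _ _ _
      rw [h3]
      refine (measureReal_union_le _ _).trans ?_
      push_cast
      linarith

lemma block {ε : ℝ} (hε : 0 < ε) (lo : ℕ) :
    ∃ (hi : ℕ) (U : Set ℝ), Good lo hi U ∧ MeasurableSet U ∧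
      1 / 32 ≤ mu.real (Ico (1 / 8) (1 / 4) ∩ U) ∧ mu.real (Ico (1 / 2) 1 ∩ U) ≤ ε := by
  -- choice of `k`
  have hlim : Tendsto (fun k : ℕ => 6 * (1 / ((k : ℝ) + 1)) + (3 / 4) ^ (k + 1)) atTop
      (𝓝 (6 * 0 + 0)) := by
    refine (tendsto_one_div_add_atTop_nhds_zero_nat.const_mul 6).add ?_
    exact (tendsto_pow_atTop_nhds_zero_of_lt_one (by norm_num) (by norm_num)).comp
      (tendsto_add_atTop_nat 1)
  rw [mul_zero, add_zero] at hlim
  obtain ⟨k, hk⟩ := (hlim.eventually (gt_mem_nhds (half_pos hε))).exists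
  set r : ℝ := (k + 1 : ℝ) / 8 * (3 / 4) ^ k with hr
  have hr0 : 0 < r := by positivity
  set N : ℕ := ⌈1 / r⌉₊ with hN
  have hN1 : 1 / r ≤ N := Nat.le_ceil _
  have hN2 : (N : ℝ) < 1 / r + 1 := Nat.ceil_lt_add_one (by positivity)
  set δ : ℝ := min (1 / (32 * (N + 1) * (k + 1))) (ε / (2 * (N + 1))) with hδ
  have hδ0 : 0 < δ := lt_min (by positivity) (by positivity)
  obtain ⟨hi, U, hG, hU, h1, h2⟩ := iter k lo hδ0 N
  refine ⟨hi, U, hG, hU, ?_, ?_⟩
  · have h3 : (1 - r) ^ N ≤ 1 / 2 := by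
      have h4 : 1 - r ≤ Real.exp (-r) := by
        have := Real.add_one_le_exp (-r)
        linarith
      calc (1 - r) ^ N ≤ Real.exp (-r) ^ N := pow_le_pow_left₀ (by linarith [r_le k]) h4 N
        _ = Real.exp (-(r * N)) := by rw [← Real.exp_nat_mul]; congr 1; ring
        _ ≤ Real.exp (-1) := by
            refine Real.exp_le_exp.2 (neg_le_neg ?_)
            rw [div_le_iff₀ hr0] at hN1
            linarith
        _ ≤ 1 / 2 := by
            rw [Real.exp_neg, inv_eq_one_div]
            refine one_div_le_one_div_of_le (by norm_num) ?_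
            linarith [Real.add_one_le_exp (1 : ℝ)]
    have h4 : (N : ℝ) * ((k + 1) * δ) ≤ 1 / 32 := by
      have h5 : δ ≤ 1 / (32 * (N + 1) * (k + 1)) := min_le_left _ _
      rw [le_div_iff₀ (by positivity)] at h5
      have h6 : 0 < (k + 1 : ℝ) * δ := by positivity
      nlinarith
    have h5 := measureReal_inter_add_diff (μ := mu) (s := Ico (1 / 8 : ℝ) (1 / 4)) hU
      (measure_ne_top _ _)
    have h6 : mu.real (Ico (1 / 8 : ℝ) (1 / 4)) = 1 / 8 := by
      rw [Measure.real, mu, Measure.restrict_apply measurableSet_Ico]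
      have : Ico (1 / 8 : ℝ) (1 / 4) ∩ Ico 0 1 = Ico (1 / 8) (1 / 4) := by
        rw [inter_eq_left]
        exact Ico_subset_Ico (by norm_num) (by norm_num)
      rw [this, Real.volume_Ico, ENNReal.toReal_ofReal (by norm_num)]
      norm_num
    rw [h6] at h5
    linarith
  · refine h2.trans ?_
    have h3 : (N : ℝ) * δ ≤ ε / 2 := by
      have h5 : δ ≤ ε / (2 * (N + 1)) := min_le_right _ _
      rw [le_div_iff₀ (by positivity)] at h5
      nlinarith
    have h4 : (N : ℝ) * (3 / 4) ^ (k + 1) ≤ 6 * (1 / ((k : ℝ) + 1)) + (3 / 4) ^ (k + 1) := by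
      calc (N : ℝ) * (3 / 4) ^ (k + 1) ≤ (1 / r + 1) * (3 / 4) ^ (k + 1) := by gcongr
        _ = 6 * (1 / ((k : ℝ) + 1)) + (3 / 4) ^ (k + 1) := by
            rw [hr, add_mul, one_mul, pow_succ]
            congr 1
            field_simp
            norm_num
    rw [mul_add]
    linarith

/-- There is a uniformly bounded sequence of measurable functions `f_n`, with `f_n` of period
`1/n`, whose limit superior is not constant almost everywhere. -/
theorem result : ∃ f : ℕ → ℝ → ℝ,
    (∀ n, 1 ≤ n → Measurable (f n)) ∧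
    (∃ M : ℝ, ∀ n, 1 ≤ n → ∀ x, |f n x| ≤ M) ∧
    (∀ n : ℕ, 1 ≤ n → ∀ x : ℝ, f n (x + 1 / (n : ℝ)) = f n x) ∧
    ¬ ∃ c : ℝ, ∀ᵐ x : ℝ, limsup (fun n => f n x) atTop = c := by
  classical
  -- the blocks
  have hb : ∀ b lo : ℕ, ∃ (hi : ℕ) (U : Set ℝ), Good lo hi U ∧ MeasurableSet U ∧
      1 / 32 ≤ mu.real (Ico (1 / 8) (1 / 4) ∩ U) ∧ mu.real (Ico (1 / 2) 1 ∩ U) ≤ (1 / 2) ^ b :=
    fun b lo => block (by positivity) lo
  choose H Ub hGood hUm hJ hI using hb
  set L : ℕ → ℕ := fun b => Nat.rec 0 (fun b l => max (H b l) (l + 1)) b with hL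
  have hLs : ∀ b, L (b + 1) = max (H b (L b)) (L b + 1) := fun b => rfl
  have hLmono : StrictMono L := strictMono_nat_of_lt_succ fun b => by
    rw [hLs]; exact lt_of_lt_of_le (Nat.lt_succ_self _) (le_max_right _ _)
  set U : ℕ → Set ℝ := fun b => Ub b (L b) with hU
  have hG : ∀ b, Good (L b) (L (b + 1)) (U b) := fun b =>
    good_mono (hGood b (L b)) (by rw [hLs]; exact le_max_left _ _)
  choose E hEm hEp hEe hEu using hG
  set F : ℕ → Set ℝ := fun n => ⋃ b, E b n with hF
  have hFm : ∀ n, MeasurableSet (F n) := fun n => MeasurableSet.iUnion fun b => hEm b n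
  have hfreq : ∀ x, (∃ᶠ n in atTop, x ∈ F n) ↔ ∃ᶠ b in atTop, x ∈ U b := by
    intro x
    rw [frequently_atTop, frequently_atTop]
    constructor
    · intro h b0
      obtain ⟨n, hn, hx⟩ := h (L b0)
      obtain ⟨b, hb⟩ := mem_iUnion.1 hx
      have h1 : n < L (b + 1) := by
        by_contra hcon
        rw [hEe b n (Or.inr (not_lt.1 hcon))] at hb
        exact hb
      refine ⟨b, ?_, ?_⟩
      · have h2 : L b0 < L (b + 1) := lt_of_le_of_lt hn h1
        have := (StrictMono.lt_iff_lt hLmono (a := b0) (b := b + 1)).1 h2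
        omega
      · rw [hEu b]; exact mem_iUnion.2 ⟨n, hb⟩
    · intro h n0
      obtain ⟨b, hb, hx⟩ := h n0
      rw [hEu b] at hx
      obtain ⟨n, hn⟩ := mem_iUnion.1 hx
      have h1 : L b ≤ n := by
        by_contra hcon
        rw [hEe b n (Or.inl (not_le.1 hcon))] at hn
        exact hn
      refine ⟨n, ?_, mem_iUnion.2 ⟨b, hn⟩⟩
      exact (hb.trans hLmono.le_apply).trans h1
  set f : ℕ → ℝ → ℝ := fun n => (F n).indicator fun _ => 1 with hf
  have hf01 : ∀ n x, 0 ≤ f n x ∧ f n x ≤ 1 := by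
    intro n x
    rw [hf]
    by_cases h : x ∈ F n
    · simp [h]
    · simp [h]
  have hlim0 : ∀ x, (¬ ∃ᶠ b in atTop, x ∈ U b) → limsup (fun n => f n x) atTop = 0 := by
    intro x hx
    rw [← hfreq, not_frequently] at hx
    refine Tendsto.limsup_eq (tendsto_const_nhds.congr' ?_)
    filter_upwards [hx] with n hn
    simp [hf, hn]
  have hlim1 : ∀ x, (∃ᶠ b in atTop, x ∈ U b) → limsup (fun n => f n x) atTop = 1 := by
    intro x hx
    rw [← hfreq] at hx
    apply le_antisymm
    · refine limsup_le_of_le ⟨0, ?_⟩ (Eventually.of_forall fun n => (hf01 n x).2)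
      intro a ha
      rw [eventually_map] at ha
      obtain ⟨n, hn⟩ := ha.exists
      exact (hf01 n x).1.trans hn
    · refine le_limsup_of_frequently_le ?_ ⟨1, ?_⟩
      · refine hx.mono fun n hn => ?_
        simp [hf, hn]
      · rw [eventually_map]
        exact Eventually.of_forall fun n => (hf01 n x).2
  refine ⟨f, fun n _ => (measurable_const.indicator (hFm n)), ⟨1, fun n _ x => ?_⟩,
    fun n _ x => ?_, ?_⟩
  · rw [abs_of_nonneg (hf01 n x).1]; exact (hf01 n x).2
  · have : x + 1 / (n : ℝ) ∈ F n ↔ x ∈ F n := by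
      rw [hF, mem_iUnion, mem_iUnion]
      exact exists_congr fun b => hEp b n x
    rw [hf]
    by_cases h : x ∈ F n
    · simp only [indicator_of_mem h, indicator_of_mem (this.2 h)]
    · simp only [indicator_of_notMem h, indicator_of_notMem (fun h' => h (this.1 h'))]
  · rintro ⟨c, hc⟩
    have hc' : ∀ᵐ x ∂ mu, limsup (fun n => f n x) atTop = c := ae_restrict_of_ae hc
    -- on the second interval the limit superior vanishes
    have hBC : ∀ᵐ x ∂ mu, ¬ ∃ᶠ b in atTop, x ∈ Ico (1 / 2) 1 ∩ U b := by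
      have hsum : (∑' b, mu (Ico (1 / 2) 1 ∩ U b)) ≠ ⊤ := by
        have h1 : ∀ b, mu (Ico (1 / 2) 1 ∩ U b) ≤ ENNReal.ofReal ((1 / 2) ^ b) := by
          intro b
          rw [← ENNReal.ofReal_toReal (measure_ne_top mu (Ico (1 / 2) 1 ∩ U b))]
          exact ENNReal.ofReal_le_ofReal (hI b (L b))
        refine ne_top_of_le_ne_top ?_ (ENNReal.tsum_le_tsum h1)
        exact (summable_geometric_of_lt_one (by norm_num) (by norm_num)).tsum_ofReal_ne_top
      filter_upwards [ae_eventually_notMem hsum] with x hx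
      rw [not_frequently]
      exact hx
    have hc0 : c = 0 := by
      have h1 : 0 < mu (Ico (1 / 2) 1) := by
        rw [mu, Measure.restrict_apply measurableSet_Ico]
        have : Ico (1 / 2 : ℝ) 1 ∩ Ico 0 1 = Ico (1 / 2) 1 := by
          rw [inter_eq_left]
          exact Ico_subset_Ico (by norm_num) (by norm_num)
        rw [this, Real.volume_Ico]
        simp only [ENNReal.ofReal_pos]
        norm_num
      obtain ⟨x, hx, h2, h3⟩ := ((frequently_ae_mem_iff.2 h1.ne').and_eventually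
        (hBC.and hc')).exists
      rw [← h3]
      refine hlim0 x fun hcon => h2 (hcon.mono fun b hb => ⟨hx, hb⟩)
    -- on the first interval it does not
    have hae : ∀ᵐ x ∂ mu, ∀ᶠ b in atTop, x ∈ Ico (1 / 8) (1 / 4) ∩ U b ↔ x ∈ (∅ : Set ℝ) := by
      filter_upwards [hc'] with x hx
      have h1 : ¬ ∃ᶠ b in atTop, x ∈ U b := by
        intro hcon
        rw [hlim1 x hcon, hc0] at hx
        norm_num at hx
      rw [not_frequently] at h1
      filter_upwards [h1] with b hb
      simp only [mem_empty_iff_false, iff_false]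
      exact fun h => hb h.2
    have hten := tendsto_measure_of_ae_tendsto_indicator_of_isFiniteMeasure atTop
      MeasurableSet.empty (fun b => measurableSet_Ico.inter (hUm b (L b))) hae
    rw [measure_empty] at hten
    have hten2 := (ENNReal.tendsto_toReal ENNReal.zero_ne_top).comp hten
    rw [ENNReal.toReal_zero] at hten2
    have := ge_of_tendsto' hten2 (b := 1 / 32) fun b => hJ b (L b)
    norm_num at this

end Pool.Agent.Results.MP_942486_an.NonconstantLimsup
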